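import Pool.Agent.Run7.h95.LF.Exp
import Pool.Agent.Results.MP_b5e119_nt.AdditiveValues

/-!
# The gcd recursion for Goldbach pairs for ALL parameters in long windows around generic linear forms

The result `SlowForAlmostAll` gives a lower bound for `g_N` for almost all `N`, with an exceptional set of
`X exp (-c (log X)^(3/4))` elements up to `X`. Here the bound is proved for ALL parameters `N` in windows of length
`exp (c' (log |v|)^(3/4))` around the values `α · v` of a linear form with generic real coefficients `α` at the members `v` of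
an arbitrary thin family of vectors, for all but finitely many `v`. The family can be any family such that the sum of the
`exp (- c (log (1 + |v|))^(3/4))` converges for all `c > 0`; for instance all vectors `(b_1^(n_1), …, b_k^(n_k))` with `b_j > 1`, or
all vectors `(exp ((log n_1)^a), …, exp ((log n_k)^a))` with `a > 4 / 3` (for example `n^(log n)`). The same holds for the
parameters near `G (F m)`, `F` a composition of `l` additive functions, for all `m` in windows of length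
`exp (c' (log |v|)^(3/(4 + 3 l)))`.

Proof: the volume of the set of the `α` with an exceptional number in the window of `v` is at most
`C exp (- c'' (log |v|)^(3/4))`, and the lemma of Borel and Cantelli applies (`Pool.Agent.Run7.h95.LF.Exp`).
-/

set_option autoImplicit false

open MeasureTheory

namespace Pool.Agent.Results.MP_b5e119_nt.GenericLinearForms

open Run7.h95.LF (SlowE FastE ae_nat_exp slowE_examples)
open Pool.Agent.N375.AV (PD comp pd_additive pd_sopfr pd_largest pd_kempner)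
open Pool.Agent.N733.TG (Expanding)
open AdditiveValues (Slow)

/-- the exceptional set -/
lemma few_bad : ∃ c D : ℝ, 0 < c ∧ 0 < D ∧ ∃ c₁ K : ℝ, 0 < c₁ ∧ ∀ x : ℕ, 1 ≤ x →
    ({N : ℕ | 1 ≤ N ∧ N ≤ x ∧ ¬ (3 ≤ N ∧ Slow c D N)}.ncard : ℝ) ≤
      K * x * Real.exp (-(c₁ * Real.log x ^ (3 / 4 : ℝ))) := by
  classical
  obtain ⟨c, D, c₁, K, hc, hD, hc₁, hc₁1, hK, hfew⟩ := AdditiveValues.few
  refine ⟨c, D, hc, hD, c₁, K + 6, hc₁, fun x hx => ?_⟩
  have hsub : {N : ℕ | 1 ≤ N ∧ N ≤ x ∧ ¬ (3 ≤ N ∧ Slow c D N)} ⊆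
      ((Finset.Icc 1 2 ∪ (Finset.Icc 3 x).filter (fun N : ℕ => ¬ Slow c D N) : Finset ℕ) : Set ℕ) := by
    rintro N ⟨h1, h2, h3⟩
    rw [Finset.mem_coe, Finset.mem_union, Finset.mem_Icc, Finset.mem_filter, Finset.mem_Icc]
    by_cases h : N < 3
    · exact Or.inl ⟨h1, by omega⟩
    · right
      push Not at h
      exact ⟨⟨h, h2⟩, fun hs => h3 ⟨h, hs⟩⟩
  have h1 := (Set.ncard_le_ncard hsub (Finset.finite_toSet _))
  rw [Set.ncard_coe_finset] at h1
  have h2 := h1.trans (Finset.card_union_le _ _)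
  rw [Nat.card_Icc] at h2
  have h3 : ({N : ℕ | 1 ≤ N ∧ N ≤ x ∧ ¬ (3 ≤ N ∧ Slow c D N)}.ncard : ℝ) ≤
      2 + (((Finset.Icc 3 x).filter (fun N : ℕ => ¬ Slow c D N)).card : ℝ) := by exact_mod_cast h2
  have h4 := hfew x hx
  have h4' : (((Finset.Icc 3 x).filter (fun N : ℕ => ¬ Slow c D N)).card : ℝ) ≤
      K * x * Real.exp (-(c₁ * Real.log x ^ (3 / 4 : ℝ))) := by convert h4 using 3
  have hx1 : (1 : ℝ) ≤ x := by exact_mod_cast hx
  have hx0 : (0 : ℝ) < x := by linarith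
  obtain ⟨L, hL⟩ : ∃ L : ℝ, L = Real.log x := ⟨_, rfl⟩
  have hL0 : 0 ≤ L := by rw [hL]; exact Real.log_nonneg hx1
  have hxL : (x : ℝ) = Real.exp L := by rw [hL, Real.exp_log hx0]
  have hL34 : 0 ≤ L ^ (3 / 4 : ℝ) := by positivity
  have hL34' : L ^ (3 / 4 : ℝ) ≤ L + 1 := by
    rcases le_or_gt L 1 with h | h
    · have := Real.rpow_le_one hL0 h (by norm_num : (0 : ℝ) ≤ 3 / 4)
      linarith
    · calc L ^ (3 / 4 : ℝ) ≤ L ^ (1 : ℝ) := Real.rpow_le_rpow_of_exponent_le h.le (by norm_num)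
        _ = L := Real.rpow_one _
        _ ≤ L + 1 := by linarith
  have h5 : 1 ≤ 3 * ((x : ℝ) * Real.exp (-(c₁ * L ^ (3 / 4 : ℝ)))) := by
    rw [hxL, ← Real.exp_add]
    have h1 : Real.exp (-1) ≤ Real.exp (L + -(c₁ * L ^ (3 / 4 : ℝ))) := by
      apply Real.exp_le_exp.2
      have : c₁ * L ^ (3 / 4 : ℝ) ≤ 1 * (L ^ (3 / 4 : ℝ)) := mul_le_mul_of_nonneg_right hc₁1 hL34
      linarith
    have h2 : (1 : ℝ) / 3 ≤ Real.exp (-1) := by
      rw [Real.exp_neg, ← one_div]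
      apply one_div_le_one_div_of_le (Real.exp_pos _)
      have := Real.exp_one_lt_d9
      linarith
    linarith
  rw [← hL] at h4' ⊢
  nlinarith

/-- **Theorem.** (1) There are `c, D > 0` and `c' > 0` such that for every family `v` of vectors in `ℝ^k` with
`SlowE (3 / 4) v` (the sum of the `exp (- e (log (1 + ‖v_i‖)) ^ (3 / 4))` converges for every `e > 0`), for almost all `α` in
`ℝ^k`, for all but finitely many `i`, for EVERY natural number `N` with
`|N - ∑ α_j v_(i,j)| ≤ exp (c' (log (1 + ‖v_i‖)) ^ (3 / 4))`: `N ≥ 3`, `g_N ≥ exp (c (log N)^(1/4))`, and the recursion for the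
parameter `N` satisfies `a_n ≥ N - exp (D (log N)^(3/4))` for all `1 ≤ n ≤ exp (c (log N)^(1/4))`. (2) There are `c, D > 0` such
that for every composition `F` of a list of `l` functions with the property `PD` and every expanding `G` of order one there is
`c' > 0` such that for every family `v` with `SlowE (3 / (4 + 3 l)) v`, for almost all `α`, for all but finitely many `i`, for all
`m` with `|m - ∑ α_j v_(i,j)| ≤ exp (c' (log (1 + ‖v_i‖)) ^ (3 / (4 + 3 l)))` the same holds for every `N ≥ 3` with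
`|N - G (F m)| ≤ exp (c (log F(m))^(3/4))`. (3) Examples of functions `PD` and `G`. (4) Examples of families. -/
theorem result :
    (∃ c D : ℝ, 0 < c ∧ 0 < D ∧ ∃ c' : ℝ, 0 < c' ∧ ∀ (k : ℕ) (ι : Type) (v : ι → Fin k → ℝ), SlowE (3 / 4) v →
      ∀ᵐ α : Fin k → ℝ, {i | ¬ ∀ N : ℕ, |(N : ℝ) - ∑ j, α j * v i j| ≤
        Real.exp (c' * Real.log (1 + ‖v i‖) ^ (3 / 4 : ℝ)) → 3 ≤ N ∧ Slow c D N}.Finite) ∧
    (∃ c D : ℝ, 0 < c ∧ 0 < D ∧ ∀ fs : List (ℕ → ℕ), (∀ f ∈ fs, PD f) → ∀ G : ℕ → ℝ, Expanding G 1 →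
      ∃ c' : ℝ, 0 < c' ∧ ∀ (k : ℕ) (ι : Type) (v : ι → Fin k → ℝ), SlowE (3 / (4 + 3 * (fs.length : ℝ))) v →
        ∀ᵐ α : Fin k → ℝ, {i | ¬ ∀ m : ℕ, |(m : ℝ) - ∑ j, α j * v i j| ≤
          Real.exp (c' * Real.log (1 + ‖v i‖) ^ (3 / (4 + 3 * (fs.length : ℝ)))) → ∀ N : ℕ, 3 ≤ N →
            |(N : ℝ) - G (comp fs m)| ≤ Real.exp (c * Real.log (comp fs m) ^ (3 / 4 : ℝ)) → Slow c D N}.Finite) ∧
    ((∀ f : ℕ → ℕ, (∀ a b : ℕ, Nat.Coprime a b → f (a * b) = f a + f b) →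
      (∃ C : ℕ, ∀ q j : ℕ, q.Prime → 1 ≤ j → f (q ^ j) ≤ C * q ^ j) →
      (∃ P : ℕ, ∀ p q : ℕ, p.Prime → q.Prime → P ≤ p → P ≤ q → f p = f q → p = q) → PD f) ∧
      PD (fun n => n.primeFactorsList.sum) ∧ PD (fun n => n.primeFactors.sup id) ∧
      PD (fun n => sInf {k : ℕ | n ∣ k.factorial}) ∧
      ∀ α β : ℝ, 0 < α → Expanding (fun v => α * (v : ℝ) + β) 1) ∧
    (∀ β : ℝ, 0 < β →
      (∀ (d : ℕ) (u : Fin d → ℕ → ℝ), (∀ j, FastE β (u j)) → SlowE β (fun (n : Fin d → ℕ) (j : Fin d) => u j (n j))) ∧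
      (∀ a : ℝ, 1 < a * β → FastE β (fun n => Real.exp (Real.log (1 + n) ^ a))) ∧
      (∀ a : ℝ, 0 < a → FastE β (fun n => Real.exp ((n : ℝ) ^ a))) ∧
      ∀ b : ℝ, 1 < b → FastE β (fun n => b ^ n)) := by
  refine ⟨?_, ?_, AdditiveValues.result.2, fun β hβ => slowE_examples hβ⟩
  · obtain ⟨c, D, hc, hD, h⟩ := few_bad
    obtain ⟨c', hc', h'⟩ := ae_nat_exp (β := 3 / 4) (by norm_num) (by norm_num) (fun N => 3 ≤ N ∧ Slow c D N) h
    exact ⟨c, D, hc, hD, c', hc', h'⟩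
  · obtain ⟨c, D, hc, hD, h⟩ := AdditiveValues.result.1
    refine ⟨c, D, hc, hD, fun fs hfs G hG => ?_⟩
    obtain ⟨c', K', hc', h'⟩ := h fs hfs G hG
    have hl : (0 : ℝ) ≤ fs.length := Nat.cast_nonneg _
    exact ae_nat_exp (β := 3 / (4 + 3 * (fs.length : ℝ))) (by positivity) (by
      rw [div_le_one (by positivity)]
      linarith) (fun m => ∀ N : ℕ, 3 ≤ N →
        |(N : ℝ) - G (comp fs m)| ≤ Real.exp (c * Real.log (comp fs m) ^ (3 / 4 : ℝ)) → Slow c D N) ⟨c', K', hc', h'⟩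

end Pool.Agent.Results.MP_b5e119_nt.GenericLinearForms
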