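import Pool.Agent.Run7.h672.WT.W
import Pool.Agent.R105.GD.Gol
import Pool.Agent.R105.GD.Pairs

/-!
# The gcd recursion for Goldbach pairs: the typical size of `N - g_N` for random integers written by independent random words

`a N` is the recursion `a_1, a_2, …` of the problem for the parameter `N` and `g N = g_N` its least zero `n ≥ 2`. The
definitions `len`, `Words`, `cat`, `noRest`, `cutWord`, `WordLaw` are in `Pool.Agent.Run7.h672.CC.Defs`.

Method: by the starting result `LongDescent`, `g_N + 1` and `2 N - g_N - 1` are both prime as soon as `N ≥ 2208` and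
`g_N ≥ 7 N / 9`. The exponential sums of a random integer written by random words are small at all the fractions with
denominators up to `exp (δ √k)` without small prime factors (`Pool.Agent.Run7.h672.CC`, by a strong renewal theorem and the
exchange of two words which do not commute), hence the fundamental lemma of the sieve applies with all the primes up to
`exp (δ √k)` (`Pool.Agent.Run7.h672.WT`); the average of the singular series is that of the starting library (`R105.GD`).
-/

set_option autoImplicit false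

open Finset
open Pool.Agent.Run7.h672.CC
open Pool.Agent.Run7.h672.WT
open Pool.Agent.Y851.DK (sg)

namespace Pool.Agent.Results.MP_b5e119_nt.TypicalDefectWords

/-- the recursion of the problem: `a_1 = N - 2`, and
`a_n = a_{n-1} - gcd(a_{n-1}, N - (-1)^n (N - n))` for `n ≥ 2` (and `a_0 = 0`, not used) -/
noncomputable def a (N : ℕ) : ℕ → ℤ
  | 0 => 0
  | 1 => (N : ℤ) - 2
  | (n + 2) => a N (n + 1) - ((Int.gcd (a N (n + 1))
      ((N : ℤ) - (-1) ^ (n + 2) * ((N : ℤ) - ((n + 2 : ℕ) : ℤ))) : ℕ) : ℤ)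

/-- `g_N`: the least `n ≥ 2` with `a_n = 0` -/
noncomputable def g (N : ℕ) : ℕ := sInf {n : ℕ | 2 ≤ n ∧ a N n = 0}

lemma a_eq (N n : ℕ) : a N n = Pool.Agent.R105.GD.Gol.aa N n := by
  induction n using Nat.strong_induction_on with
  | _ n ih =>
    match n with
    | 0 => rw [a, Pool.Agent.R105.GD.Gol.aa]
    | 1 => rw [a, Pool.Agent.R105.GD.Gol.aa]
    | n + 2 => rw [a, Pool.Agent.R105.GD.Gol.aa, ih (n + 1) (by omega)]

lemma g_eq (N : ℕ) : g N = Pool.Agent.R105.GD.Gol.gg N := by
  unfold g Pool.Agent.R105.GD.Gol.gg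
  simp only [a_eq]

open Classical in
/-- Let `q` be the law of a random word in base `b` (`Words b q`: any language, finite or infinite, lengths with an
exponential moment and without a common divisor, and two words which do not commute), and `κ ≥ 1`. There is a constant `C` such
that for all `k ≥ 1`, for every random integer `v < b ^ k` whose `k` digits are written by independent random words with the law
`q`, conditioned on the total length `k`, or cut after `k` digits (`WordLaw b q k p`), for EVERY integer `c ≥ 0` and every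
real `t ≥ 1`: the probability that `N = c + κ v` satisfies `N ≥ 3` and `N - g_N ≤ t` is at most `C (1 / √k + t / k)`. -/
theorem result (b : ℕ) (q : ℕ → ℕ → ℝ) (hq : Words b q) (κ : ℕ) (hκ : 1 ≤ κ) :
    ∃ C : ℝ, 0 < C ∧ ∀ k : ℕ, 1 ≤ k → ∀ p : ℕ → ℝ, WordLaw b q k p → ∀ (c : ℕ) (t : ℝ), 1 ≤ t →
      ∑ v ∈ range (b ^ k), (if 3 ≤ c + κ * v ∧ ((c + κ * v : ℕ) : ℝ) - g (c + κ * v) ≤ t then p v else 0) ≤
        C * (1 / Real.sqrt k + t / k) := by
  obtain ⟨L, T, hcls⟩ := Pool.Agent.Run7.h672.XC.word_rcls hq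
  obtain ⟨C, hC, k1, h1⟩ := law_forms hcls 2 2 κ hκ
  obtain ⟨C', hC', k1', h1'⟩ := law_forms hcls 1 2 κ hκ
  obtain ⟨C2, hC2, hav⟩ := Pool.Agent.R105.GD.exp_avg 4 (by norm_num)
  obtain ⟨k2, h2⟩ := word_small hq κ hκ 0
  obtain ⟨k3, h3⟩ := ev_exp 3 2300 (by norm_num)
  obtain ⟨k₀, hk₀⟩ : ∃ k₀, k₀ = max (max (max k1 k1') k2) k3 := ⟨_, rfl⟩
  refine ⟨C * C2 + C' + 1 + k₀, by positivity, fun k hk p hp c t ht => ?_⟩
  have hk0 : (0 : ℝ) < k := by exact_mod_cast (by omega : 0 < k)
  have hk1 : (1 : ℝ) ≤ k := by exact_mod_cast hk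
  obtain ⟨s, hs⟩ : ∃ s, s = Real.sqrt k := ⟨_, rfl⟩
  have hss : s * s = k := by rw [hs]; exact Real.mul_self_sqrt hk0.le
  have hs1 : 1 ≤ s := by rw [hs]; exact Real.one_le_sqrt.2 hk1
  have hs0 : 0 < s := by linarith
  rw [← hs, ← hss]
  have hp0 : ∀ v, 0 ≤ p v := law_nonneg hq hp
  have htot : ∑ v ∈ range (b ^ k), (if 3 ≤ c + κ * v ∧ ((c + κ * v : ℕ) : ℝ) - g (c + κ * v) ≤ t then p v else 0) ≤ 1 := by
    rw [← law_sum hp]
    apply sum_le_sum
    intro v _
    split_ifs
    · exact le_rfl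
    · exact hp0 v
  have hk₀0 : (0 : ℝ) ≤ k₀ := Nat.cast_nonneg _
  have hss0 : 0 < s * s := by positivity
  have hCC : 0 < C * C2 := by positivity
  have hD1 : 1 ≤ C * C2 + C' + 1 + k₀ := by linarith
  by_cases hbig : k < k₀
  · refine htot.trans ?_
    have e1 : (k : ℝ) ≤ k₀ := by exact_mod_cast hbig.le
    have e2 : 1 ≤ (k₀ : ℝ) * (t / (s * s)) := by
      rw [← mul_div_assoc, le_div_iff₀ hss0, one_mul, hss]
      nlinarith
    have e3 : 0 ≤ 1 / s := by positivity
    have e4 : 0 ≤ t / (s * s) := by positivity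
    calc (1 : ℝ) ≤ (k₀ : ℝ) * (t / (s * s)) := e2
      _ ≤ (C * C2 + C' + 1 + k₀) * (t / (s * s)) := mul_le_mul_of_nonneg_right (by linarith) e4
      _ ≤ (C * C2 + C' + 1 + k₀) * (1 / s + t / (s * s)) := mul_le_mul_of_nonneg_left (by linarith) (by linarith)
  push Not at hbig
  by_cases hts : s * s < t
  · refine htot.trans ?_
    have e2 : 1 ≤ t / (s * s) := by
      rw [le_div_iff₀ hss0, one_mul]
      exact hts.le
    have e3 : 0 ≤ 1 / s := by positivity
    nlinarith
  push Not at hts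
  obtain ⟨g1, g2⟩ := h3 k (by omega)
  rw [← hs] at g1 g2
  obtain ⟨H, hH⟩ : ∃ H, H = ⌊t⌋₊ := ⟨_, rfl⟩
  have hHt : (H : ℝ) ≤ t := by rw [hH]; exact Nat.floor_le (by linarith)
  have hH1 : 1 ≤ H := by rw [hH]; exact Nat.le_floor (by exact_mod_cast ht)
  have hs23 : s * s ≤ s ^ 3 := by
    have : s ^ 3 = s * s * s := by ring
    nlinarith
  have h13 : 1 ≤ s ^ 3 := one_le_pow₀ hs1
  obtain ⟨A, hA⟩ : ∃ A : ℕ → Finset ℤ, A = fun h : ℕ => ({(c : ℤ) - h + 1, (c : ℤ) + h - 1} : Finset ℤ) := ⟨_, rfl⟩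
  obtain ⟨Es, hEs⟩ : ∃ Es, Es = (range (b ^ k)).filter (fun v => 1 ≤ c + κ * v ∧ ((c + κ * v : ℕ) : ℝ) ≤ 2 * Real.exp s) := ⟨_, rfl⟩
  obtain ⟨Eh, hEh⟩ : ∃ Eh : ℕ → Finset ℕ, Eh = fun h => (range (b ^ k)).filter (fun v =>
      2 * Real.exp s < ((c + κ * v : ℕ) : ℝ) ∧ ∀ j ∈ A h, ((κ : ℤ) * v + j).toNat.Prime) := ⟨_, rfl⟩
  have hpt : ∀ v ∈ range (b ^ k), (if 3 ≤ c + κ * v ∧ ((c + κ * v : ℕ) : ℝ) - g (c + κ * v) ≤ t then p v else 0) ≤
      (if v ∈ Es then p v else 0) + ∑ h ∈ Icc 1 H, (if v ∈ Eh h then p v else 0) := by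
    intro v hv
    have hn1 : ∀ h, (0 : ℝ) ≤ if v ∈ Eh h then p v else 0 := by
      intro h
      split_ifs
      · exact hp0 v
      · exact le_rfl
    have hn2 : (0 : ℝ) ≤ ∑ h ∈ Icc 1 H, (if v ∈ Eh h then p v else 0) := sum_nonneg fun h _ => hn1 h
    have hn3 : (0 : ℝ) ≤ if v ∈ Es then p v else 0 := by
      split_ifs
      · exact hp0 v
      · exact le_rfl
    by_cases hc : 3 ≤ c + κ * v ∧ ((c + κ * v : ℕ) : ℝ) - g (c + κ * v) ≤ t
    · rw [if_pos hc]
      obtain ⟨c1, c2⟩ := hc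
      by_cases hsm : ((c + κ * v : ℕ) : ℝ) ≤ 2 * Real.exp s
      · have : v ∈ Es := by
          rw [hEs, mem_filter]
          exact ⟨hv, by omega, hsm⟩
        rw [if_pos this]
        linarith
      · push Not at hsm
        obtain ⟨N, hN⟩ : ∃ N, N = c + κ * v := ⟨_, rfl⟩
        rw [← hN] at c1 c2 hsm
        have hgle : g N + 1 ≤ N := by rw [g_eq]; exact Pool.Agent.R105.GD.Gol.gg_le N c1
        obtain ⟨h, hh⟩ : ∃ h, h = N - g N := ⟨_, rfl⟩
        have hhN : N = g N + h := by omega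
        have hh1 : 1 ≤ h := by omega
        have hht : (h : ℝ) ≤ t := by
          have e : (N : ℝ) = g N + h := by exact_mod_cast hhN
          linarith
        have hhH : h ≤ H := by rw [hH]; exact Nat.le_floor hht
        have hex : 2300 * s ^ 3 < (N : ℝ) := by
          have := Real.exp_pos s
          linarith
        have e1 : 2208 ≤ N := by
          have : (2208 : ℝ) ≤ N := by linarith
          exact_mod_cast this
        have e2 : 9 * h ≤ 2 * N := by
          have : (9 : ℝ) * h ≤ 2 * N := by linarith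
          exact_mod_cast this
        have hpr := Pool.Agent.R105.GD.Gol.gg_primes N e1 (by rw [← g_eq]; omega)
        rw [← g_eq] at hpr
        have hmem : v ∈ Eh h := by
          rw [hEh]
          simp only
          rw [mem_filter]
          refine ⟨hv, by rw [← hN]; exact hsm, fun j hj => ?_⟩
          rw [hA] at hj
          simp only [mem_insert, mem_singleton] at hj
          have e3 : ((κ : ℤ) * v + (c : ℤ)) = (g N : ℤ) + h := by
            have : ((c + κ * v : ℕ) : ℤ) = ((g N + h : ℕ) : ℤ) := by rw [← hN, ← hhN]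
            push_cast at this
            linarith
          rcases hj with rfl | rfl
          · have : ((κ : ℤ) * v + ((c : ℤ) - h + 1)).toNat = g N + 1 := by
              have : (κ : ℤ) * v + ((c : ℤ) - h + 1) = ((g N + 1 : ℕ) : ℤ) := by push_cast; linarith
              rw [this, Int.toNat_natCast]
            rw [this]
            exact hpr.1
          · have : ((κ : ℤ) * v + ((c : ℤ) + h - 1)).toNat = 2 * N - g N - 1 := by omega
            rw [this]
            exact hpr.2
        have hsg : p v ≤ ∑ h ∈ Icc 1 H, (if v ∈ Eh h then p v else 0) := by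
          refine le_trans (le_of_eq ?_) (single_le_sum (fun h _ => hn1 h) (mem_Icc.2 ⟨hh1, hhH⟩))
          rw [if_pos hmem]
        linarith
    · rw [if_neg hc]
      linarith
  have hsum := sum_le_sum hpt
  rw [sum_add_distrib, sum_comm] at hsum
  have hS : ∑ v ∈ range (b ^ k), (if v ∈ Es then p v else 0) ≤ 1 / (s * s) := by
    rw [sum_ite_mem]
    refine (h2 k (by omega) p hp c (range (b ^ k) ∩ Es) (fun v hv => ?_)).trans (le_of_eq ?_)
    · obtain ⟨q1, q2⟩ := mem_inter.1 hv
      rw [hEs, mem_filter] at q2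
      rw [← hs]
      exact ⟨mem_range.1 q1, q2.2⟩
    · rw [← hss, zero_add, pow_one]
  have hlow : ∀ h ∈ Icc 1 H, ∀ v ∈ range (b ^ k) ∩ Eh h, ∀ j ∈ A h, Real.exp s < (((κ : ℤ) * v + j : ℤ) : ℝ) := by
    intro h hhr v hv j hj
    have hhH : (h : ℝ) ≤ t := by
      have : (h : ℝ) ≤ H := by exact_mod_cast (mem_Icc.1 hhr).2
      linarith
    have hh1 := (mem_Icc.1 hhr).1
    obtain ⟨q1, q2⟩ := mem_inter.1 hv
    rw [hEh] at q2
    simp only at q2
    rw [mem_filter] at q2
    have hjc : (c : ℤ) - h + 1 ≤ j := by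
      rw [hA] at hj
      simp only [mem_insert, mem_singleton] at hj
      rcases hj with rfl | rfl <;> omega
    have hjr : (c : ℝ) - h + 1 ≤ j := by exact_mod_cast hjc
    have q3 := q2.2.1
    push_cast at q3 ⊢
    linarith
  have hpri : ∀ h, ∀ v ∈ range (b ^ k) ∩ Eh h, v < b ^ k ∧ ∀ j ∈ A h, ((κ : ℤ) * v + j).toNat.Prime := by
    intro h v hv
    obtain ⟨q1, q2⟩ := mem_inter.1 hv
    rw [hEh] at q2
    simp only at q2
    rw [mem_filter] at q2
    exact ⟨mem_range.1 q1, q2.2.2⟩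
  have hh1 : ∑ v ∈ range (b ^ k), (if v ∈ Eh 1 then p v else 0) ≤ C' / s := by
    rw [sum_ite_mem]
    have hA1 : A 1 = {(c : ℤ)} := by
      rw [hA]
      simp
    have h4 := h1' k (by omega) p hp (A 1) (by rw [hA1]; simp) ∅ (by
      intro q _ _ _ j hj j' hj' _
      rw [hA1, mem_singleton] at hj hj'
      rw [hj, hj']) (range (b ^ k) ∩ Eh 1) (by
      intro v hv
      refine ⟨(hpri 1 v hv).1, fun j hj => ⟨(hpri 1 v hv).2 j hj, ?_⟩⟩
      rw [← hs]
      exact hlow 1 (mem_Icc.2 ⟨le_rfl, hH1⟩) v hv j hj)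
    rw [← hs] at h4
    refine h4.trans (le_of_eq ?_)
    rw [sum_empty, mul_zero, Real.exp_zero, mul_one, pow_one]
  have hh2 : ∀ h ∈ Icc 2 H, ∑ v ∈ range (b ^ k), (if v ∈ Eh h then p v else 0) ≤ C / (s * s) * Real.exp (4 * sg (h - 1)) := by
    intro h hhr
    rw [mem_Icc] at hhr
    rw [sum_ite_mem]
    have h4 := h1 k (by omega) p hp (A h) (by
      rw [hA]
      simp only
      rw [card_pair]
      omega) (h - 1).primeFactors (by
      intro q hqp hq2 hqB j hj j' hj' hd
      rw [hA] at hj hj'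
      simp only [mem_insert, mem_singleton] at hj hj'
      by_contra hne
      apply hqB
      rw [Nat.mem_primeFactors]
      refine ⟨hqp, ?_, by omega⟩
      have hd2 : (q : ℤ) ∣ 2 * ((h : ℤ) - 1) := by
        rcases hj with rfl | rfl <;> rcases hj' with rfl | rfl
        · exact absurd rfl hne
        · have e : (c : ℤ) - h + 1 - ((c : ℤ) + h - 1) = -(2 * ((h : ℤ) - 1)) := by ring
          rw [e] at hd
          exact (dvd_neg).1 hd
        · have e : (c : ℤ) + h - 1 - ((c : ℤ) - h + 1) = 2 * ((h : ℤ) - 1) := by ring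
          rwa [e] at hd
        · exact absurd rfl hne
      have hd3 : q ∣ 2 * (h - 1) := by
        have e : ((2 * (h - 1) : ℕ) : ℤ) = 2 * ((h : ℤ) - 1) := by
          rw [Nat.cast_mul, Nat.cast_sub (by omega)]
          simp
        rw [← e] at hd2
        exact_mod_cast hd2
      rcases (hqp.dvd_mul).1 hd3 with g | g
      · have := Nat.le_of_dvd (by norm_num) g
        omega
      · exact g) (range (b ^ k) ∩ Eh h) (by
      intro v hv
      refine ⟨(hpri h v hv).1, fun j hj => ⟨(hpri h v hv).2 j hj, ?_⟩⟩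
      rw [← hs]
      exact hlow h (mem_Icc.2 ⟨by omega, hhr.2⟩) v hv j hj)
    rw [← hs] at h4
    refine h4.trans (le_of_eq ?_)
    have e1 : (2 : ℝ) * ((2 : ℕ) : ℝ) * ∑ q ∈ (h - 1).primeFactors, 1 / (q : ℝ) = 4 * sg (h - 1) := by
      unfold sg
      push_cast
      ring
    rw [e1, sq]
    ring
  have hsplit : ∑ h ∈ Icc 1 H, ∑ v ∈ range (b ^ k), (if v ∈ Eh h then p v else 0) =
      ∑ v ∈ range (b ^ k), (if v ∈ Eh 1 then p v else 0) + ∑ h ∈ Icc 2 H, ∑ v ∈ range (b ^ k), (if v ∈ Eh h then p v else 0) := by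
    have e : Icc 1 H = insert 1 (Icc 2 H) := by
      ext x
      rw [mem_insert, mem_Icc, mem_Icc]
      omega
    rw [e, sum_insert]
    rw [mem_Icc]
    omega
  have hS2 := sum_le_sum hh2
  rw [← mul_sum] at hS2
  have hsh : ∑ h ∈ Icc 2 H, Real.exp (4 * sg (h - 1)) ≤ C2 * t := by
    have h3 : ∑ h ∈ Icc 2 H, Real.exp (4 * sg (h - 1)) = ∑ x ∈ Icc 1 (H - 1), Real.exp (4 * sg x) := by
      apply sum_bij (fun h _ => h - 1)
      · intro h hh
        rw [mem_Icc] at hh ⊢
        omega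
      · intro a ha b hb hab
        rw [mem_Icc] at ha hb
        omega
      · intro x hx
        rw [mem_Icc] at hx
        exact ⟨x + 1, by rw [mem_Icc]; omega, by omega⟩
      · intro h _
        rfl
    rw [h3]
    refine (hav (H - 1)).trans ?_
    apply mul_le_mul_of_nonneg_left _ (by linarith)
    refine le_trans ?_ hHt
    exact_mod_cast Nat.sub_le _ _
  have h5 : C / (s * s) * ∑ h ∈ Icc 2 H, Real.exp (4 * sg (h - 1)) ≤ C / (s * s) * (C2 * t) :=
    mul_le_mul_of_nonneg_left hsh (by positivity)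
  rw [hsplit] at hsum
  have h7 : 1 / (s * s) ≤ t / (s * s) := div_le_div_of_nonneg_right ht hss0.le
  have h8 : C / (s * s) * (C2 * t) = C * C2 * (t / (s * s)) := by ring
  have h9 : C' / s = C' * (1 / s) := by ring
  have e3 : 0 ≤ 1 / s := by positivity
  have e4 : 0 ≤ t / (s * s) := by positivity
  have e5 : 0 ≤ (C * C2 + 1 + k₀) * (1 / s) := by positivity
  have e6 : 0 ≤ (C' + k₀) * (t / (s * s)) := by positivity
  have e7 : (C * C2 + C' + 1 + k₀) * (1 / s + t / (s * s)) = C * C2 * (t / (s * s)) + C' * (1 / s) + t / (s * s) +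
      (C * C2 + 1 + k₀) * (1 / s) + (C' + k₀) * (t / (s * s)) := by ring
  rw [e7]
  linarith

end Pool.Agent.Results.MP_b5e119_nt.TypicalDefectWords
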